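import Mathlib

set_option autoImplicit false

namespace Pool.Agent.Results.MP_f95752_co.SevenVertices

/-- The subgraph of `G` induced on `S` is `d`-degenerate: every nonempty `T ⊆ S` has a vertex
with at most `d` neighbours in `T`. -/
def Degenerate {V : Type} (G : SimpleGraph V) (S : Set V) (d : ℕ) : Prop :=
  ∀ T : Set V, T ⊆ S → T.Nonempty → ∃ v ∈ T, {w | w ∈ T ∧ G.Adj v w}.ncard ≤ d

/-- Earlier neighbours of each vertex. -/
def back : Fin 7 → List (Fin 7) :=
  ![[], [0], [0, 1], [0, 1, 2], [0, 2, 3], [1, 3, 4], [0, 2, 4]]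

def G : SimpleGraph (Fin 7) := SimpleGraph.fromRel fun v w => w ∈ back v

instance : DecidableRel G.Adj := fun v w =>
  decidable_of_iff (v ≠ w ∧ (w ∈ back v ∨ v ∈ back w)) 
    (SimpleGraph.fromRel_adj (fun v w => w ∈ back v) v w).symm

theorem card_eq (T : Finset (Fin 7)) (v : Fin 7) :
    {w | w ∈ (T : Set (Fin 7)) ∧ G.Adj v w}.ncard = (T.filter fun w => G.Adj v w).card := by
  rw [← Set.ncard_coe_finset]
  congr 1
  ext w
  simp

theorem iff_fin (S : Finset (Fin 7)) (d : ℕ) : Degenerate G (S : Set (Fin 7)) d ↔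
    ∀ T ∈ S.powerset, T.Nonempty → ∃ v ∈ T, (T.filter fun w => G.Adj v w).card ≤ d := by
  constructor
  · intro h T hT hne
    obtain ⟨v, hv, hd⟩ := h T (by exact_mod_cast Finset.mem_powerset.mp hT) (by exact_mod_cast hne)
    exact ⟨v, hv, by rwa [card_eq] at hd⟩
  · intro h T hT hne
    lift T to Finset (Fin 7) using Set.toFinite T
    obtain ⟨v, hv, hd⟩ := h T (Finset.mem_powerset.mpr (by exact_mod_cast hT))
      (by exact_mod_cast hne)
    exact ⟨v, hv, by rwa [card_eq]⟩

theorem big : ∀ S : Finset (Fin 7), 6 ≤ S.card →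
    ¬ ∀ T ∈ S.powerset, T.Nonempty → ∃ v ∈ T, (T.filter fun w => G.Adj v w).card ≤ 2 := by
  decide +kernel

/-- A graph on 7 vertices of degeneracy exactly `3` in which every induced `2`-degenerate
subgraph has fewer than `(2 + 1) * 7 / (3 + 1)` vertices. -/
theorem result :
    ∃ H : SimpleGraph (Fin 7), Degenerate H Set.univ 3 ∧ ¬ Degenerate H Set.univ 2 ∧
      ∀ S : Set (Fin 7), Degenerate H S 2 → (3 + 1) * S.ncard < (2 + 1) * 7 := by
  refine ⟨G, ?_, ?_, ?_⟩
  · rw [← Finset.coe_univ, iff_fin]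
    decide +kernel
  · rw [← Finset.coe_univ, iff_fin]
    exact big _ (by decide)
  · intro S hS
    lift S to Finset (Fin 7) using Set.toFinite S
    rw [Set.ncard_coe_finset]
    by_contra hn
    exact big S (by omega) ((iff_fin S 2).mp hS)

end Pool.Agent.Results.MP_f95752_co.SevenVertices
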